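import Mathlib

/-!
# Two groups of order 930 with the same degree pattern and different prime graphs

The groups are the metacyclic groups `C_93 : C_10` (a generator of `C_10` acting as
multiplication by `-4`) and `C_155 : C_6` (a generator of `C_6` acting as multiplication
by `-36`). Their prime graphs are the paths `31 - 3 - 5 - 2` and `31 - 5 - 3 - 2`.
-/

set_option autoImplicit false

namespace Pool.Agent.Results.MP_21cc58_al.Order930

/-- The primes `p` and `q` are adjacent in the prime graph (Gruenberg-Kegel graph) of `G`: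
they are distinct primes and `G` has an element of order `p * q`. -/
def GKAdj (G : Type) [Group G] (p q : ℕ) : Prop :=
  p.Prime ∧ q.Prime ∧ p ≠ q ∧ ∃ x : G, orderOf x = p * q

/-- The degree of the vertex `p` in the prime graph of `G`. -/
noncomputable def gkDegree (G : Type) [Group G] (p : ℕ) : ℕ :=
  {q | GKAdj G p q}.ncard

/-- The degree pattern of `G`: the list of the degrees of the prime divisors of the order of `G`,
these primes being listed in increasing order. -/
noncomputable def degreePattern (G : Type) [Group G] : List ℕ :=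
  ((Nat.card G).primeFactors.sort (· ≤ ·)).map (gkDegree G)

/-- The group of pairs `(a, k)` with `(a, k) * (b, l) = (a + U k * b, k * l)`. -/
@[ext]
structure Aff {R K : Type} [CommRing R] [Group K] (U : K →* R) where
  a : R
  k : K
  deriving DecidableEq

namespace Aff

variable {R K : Type} [CommRing R] [Group K] {U : K →* R}

instance : Mul (Aff U) := ⟨fun x y => ⟨x.a + U x.k * y.a, x.k * y.k⟩⟩
instance : One (Aff U) := ⟨⟨0, 1⟩⟩
instance : Inv (Aff U) := ⟨fun x => ⟨-(U x.k⁻¹ * x.a), x.k⁻¹⟩⟩

@[simp] theorem mul_a (x y : Aff U) : (x * y).a = x.a + U x.k * y.a := rfl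
@[simp] theorem mul_k (x y : Aff U) : (x * y).k = x.k * y.k := rfl
@[simp] theorem one_a : (1 : Aff U).a = 0 := rfl
@[simp] theorem one_k : (1 : Aff U).k = 1 := rfl
@[simp] theorem inv_a (x : Aff U) : (x⁻¹).a = -(U x.k⁻¹ * x.a) := rfl
@[simp] theorem inv_k (x : Aff U) : (x⁻¹).k = x.k⁻¹ := rfl

instance : Group (Aff U) :=
  Group.ofLeftAxioms
    (by
      intro x y z
      apply Aff.ext
      · simp only [mul_a, mul_k, map_mul]
        ring
      · simp only [mul_k, mul_assoc])
    (by
      intro x
      apply Aff.ext <;> simp)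
    (by
      intro x
      apply Aff.ext <;> simp)

theorem pow_k (x : Aff U) (n : ℕ) : (x ^ n).k = x.k ^ n := by
  induction n with
  | zero => simp
  | succ n ih => rw [pow_succ, mul_k, ih, pow_succ]

theorem pow_a (x : Aff U) (hx : x.k = 1) (n : ℕ) : (x ^ n).a = n * x.a := by
  induction n with
  | zero => simp
  | succ n ih =>
    rw [pow_succ, mul_a, pow_k, ih, hx]
    simp
    ring

theorem card_eq : Nat.card (Aff U) = Nat.card R * Nat.card K := by
  rw [← Nat.card_prod]
  refine Nat.card_congr ⟨fun x => (x.a, x.k), fun p => ⟨p.1, p.2⟩, fun x => rfl, fun p => rfl⟩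

theorem finite [Finite R] [Finite K] : Finite (Aff U) :=
  Finite.of_injective (fun x : Aff U => (x.a, x.k)) fun x y h => by
    simp only [Prod.mk.injEq] at h
    exact Aff.ext h.1 h.2

end Aff

/-- The action of `C_10` on `C_93`. -/
def U1 : Multiplicative (ZMod 10) →* ZMod 93 where
  toFun k := (-4) ^ (Multiplicative.toAdd k).val
  map_one' := by decide
  map_mul' := by decide

/-- The action of `C_6` on `C_155`. -/
def U2 : Multiplicative (ZMod 6) →* ZMod 155 where
  toFun k := (-36) ^ (Multiplicative.toAdd k).val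
  map_one' := by decide
  map_mul' := by decide

abbrev G1 : Type := Aff U1
abbrev G2 : Type := Aff U2

instance : Finite G1 := by
  have : Finite (Multiplicative (ZMod 10)) := inferInstanceAs (Finite (ZMod 10))
  exact Aff.finite

instance : Finite G2 := by
  have : Finite (Multiplicative (ZMod 6)) := inferInstanceAs (Finite (ZMod 6))
  exact Aff.finite

theorem card_G1 : Nat.card G1 = 930 := by
  rw [Aff.card_eq]
  have : Nat.card (Multiplicative (ZMod 10)) = Nat.card (ZMod 10) := rfl
  rw [this, Nat.card_zmod, Nat.card_zmod]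

theorem card_G2 : Nat.card G2 = 930 := by
  rw [Aff.card_eq]
  have : Nat.card (Multiplicative (ZMod 6)) = Nat.card (ZMod 6) := rfl
  rw [this, Nat.card_zmod, Nat.card_zmod]

theorem not_orderOf {G : Type} [Group G] {p q : ℕ} (hp : p.Prime) (hq : q.Prime)
    (h : ∀ x : G, x ^ (p * q) = 1 → x ^ p = 1 ∨ x ^ q = 1) (x : G) : orderOf x ≠ p * q := by
  intro hx
  have h1 : x ^ (p * q) = 1 := hx ▸ pow_orderOf_eq_one x
  rcases h x h1 with h2 | h2
  · have h3 := orderOf_dvd_of_pow_eq_one h2
    rw [hx] at h3
    have := Nat.le_of_dvd hp.pos h3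
    nlinarith [hp.two_le, hq.two_le]
  · have h3 := orderOf_dvd_of_pow_eq_one h2
    rw [hx] at h3
    have := Nat.le_of_dvd hq.pos h3
    nlinarith [hp.two_le, hq.two_le]

theorem orderOf_eq {G : Type} [Group G] {p q : ℕ} (hp : p.Prime) (hq : q.Prime) {x : G}
    (h : x ^ (p * q) = 1) (h1 : x ^ p ≠ 1) (h2 : x ^ q ≠ 1) : orderOf x = p * q := by
  refine orderOf_eq_of_pow_and_pow_div_prime (Nat.mul_pos hp.pos hq.pos) h ?_
  intro r hr hd
  rcases (hr.dvd_mul).1 hd with h3 | h3
  · rw [(Nat.prime_dvd_prime_iff_eq hr hp).1 h3, Nat.mul_div_cancel_left _ hp.pos]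
    exact h2
  · rw [(Nat.prime_dvd_prime_iff_eq hr hq).1 h3, Nat.mul_div_cancel _ hq.pos]
    exact h1

/-! ### The first group -/

theorem G1_k {x : G1} {n : ℕ} (hx : x ^ n = 1) : x.k ^ n = 1 := by
  have := congrArg Aff.k hx
  rwa [Aff.pow_k] at this

theorem G1_no_62 (x : G1) : orderOf x ≠ 31 * 2 := by
  refine not_orderOf (by norm_num) (by norm_num) (fun x hx => ?_) x
  have h1 := G1_k hx
  have h2 : x.k = 1 ∨ x.k = Multiplicative.ofAdd 5 := by
    revert h1
    generalize x.k = k
    revert k
    decide +kernel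
  rcases h2 with h2 | h2
  · left
    have h3 := congrArg Aff.a hx
    rw [Aff.pow_a x h2] at h3
    apply Aff.ext
    · rw [Aff.pow_a x h2]
      revert h3
      generalize x.a = a
      revert a
      decide
    · rw [Aff.pow_k, h2]
      simp
  · right
    apply Aff.ext
    · rw [pow_two, Aff.mul_a, h2]
      generalize x.a = a
      revert a
      decide
    · rw [Aff.pow_k, h2]
      decide

theorem G1_no_6 (x : G1) : orderOf x ≠ 3 * 2 := by
  refine not_orderOf (by norm_num) (by norm_num) (fun x hx => ?_) x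
  have h1 := G1_k hx
  have h2 : x.k = 1 ∨ x.k = Multiplicative.ofAdd 5 := by
    revert h1
    generalize x.k = k
    revert k
    decide +kernel
  rcases h2 with h2 | h2
  · left
    have h3 := congrArg Aff.a hx
    rw [Aff.pow_a x h2] at h3
    apply Aff.ext
    · rw [Aff.pow_a x h2]
      revert h3
      generalize x.a = a
      revert a
      decide
    · rw [Aff.pow_k, h2]
      simp
  · right
    apply Aff.ext
    · rw [pow_two, Aff.mul_a, h2]
      generalize x.a = a
      revert a
      decide
    · rw [Aff.pow_k, h2]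
      decide

theorem G1_no_155 (x : G1) : orderOf x ≠ 31 * 5 := by
  refine not_orderOf (by norm_num) (by norm_num) (fun x hx => ?_) x
  have h1 := G1_k hx
  have h0 : x.k ^ 5 = 1 := by
    revert h1
    generalize x.k = k
    revert k
    decide +kernel
  by_cases h2 : x.k = 1
  · left
    have h3 := congrArg Aff.a hx
    rw [Aff.pow_a x h2] at h3
    apply Aff.ext
    · rw [Aff.pow_a x h2]
      revert h3
      generalize x.a = a
      revert a
      decide
    · rw [Aff.pow_k, h2]
      simp
  · right
    have h5 : (x ^ 5).k = 1 := by rw [Aff.pow_k, h0]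
    have h3 : x ^ (31 * 5) = (x ^ 5) ^ 31 := by rw [mul_comm, pow_mul]
    rw [h3] at hx
    have h4 := congrArg Aff.a hx
    rw [Aff.pow_a _ h5] at h4
    apply Aff.ext
    · have h6 : (x ^ 5).a = x.a * (1 + U1 x.k + U1 x.k ^ 2 + U1 x.k ^ 3 + U1 x.k ^ 4) := by
        simp only [pow_succ, pow_zero, one_mul, Aff.mul_a, Aff.mul_k, map_mul]
        ring
      rw [h6] at h4 ⊢
      revert h4 h2 h0
      generalize x.a = a
      generalize x.k = k
      revert a k
      decide +kernel
    · rw [Aff.pow_k, h0]
      rfl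

theorem G1_93 : ∃ x : G1, orderOf x = 31 * 3 :=
  ⟨⟨1, 1⟩, orderOf_eq (by norm_num) (by norm_num) (by decide +kernel) (by decide +kernel)
    (by decide +kernel)⟩

theorem G1_15 : ∃ x : G1, orderOf x = 5 * 3 :=
  ⟨⟨31, Multiplicative.ofAdd 2⟩,
    orderOf_eq (by norm_num) (by norm_num) (by decide +kernel) (by decide +kernel)
    (by decide +kernel)⟩

theorem G1_10 : ∃ x : G1, orderOf x = 5 * 2 :=
  ⟨⟨0, Multiplicative.ofAdd 1⟩,
    orderOf_eq (by norm_num) (by norm_num) (by decide +kernel) (by decide +kernel)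
    (by decide +kernel)⟩

/-! ### The second group -/

theorem G2_k {x : G2} {n : ℕ} (hx : x ^ n = 1) : x.k ^ n = 1 := by
  have := congrArg Aff.k hx
  rwa [Aff.pow_k] at this

theorem G2_no_62 (x : G2) : orderOf x ≠ 31 * 2 := by
  refine not_orderOf (by norm_num) (by norm_num) (fun x hx => ?_) x
  have h1 := G2_k hx
  have h2 : x.k = 1 ∨ x.k = Multiplicative.ofAdd 3 := by
    revert h1
    generalize x.k = k
    revert k
    decide +kernel
  rcases h2 with h2 | h2
  · left
    have h3 := congrArg Aff.a hx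
    rw [Aff.pow_a x h2] at h3
    apply Aff.ext
    · rw [Aff.pow_a x h2]
      revert h3
      generalize x.a = a
      revert a
      decide +kernel
    · rw [Aff.pow_k, h2]
      simp
  · right
    apply Aff.ext
    · rw [pow_two, Aff.mul_a, h2]
      generalize x.a = a
      revert a
      decide +kernel
    · rw [Aff.pow_k, h2]
      decide

theorem G2_no_10 (x : G2) : orderOf x ≠ 5 * 2 := by
  refine not_orderOf (by norm_num) (by norm_num) (fun x hx => ?_) x
  have h1 := G2_k hx
  have h2 : x.k = 1 ∨ x.k = Multiplicative.ofAdd 3 := by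
    revert h1
    generalize x.k = k
    revert k
    decide +kernel
  rcases h2 with h2 | h2
  · left
    have h3 := congrArg Aff.a hx
    rw [Aff.pow_a x h2] at h3
    apply Aff.ext
    · rw [Aff.pow_a x h2]
      revert h3
      generalize x.a = a
      revert a
      decide +kernel
    · rw [Aff.pow_k, h2]
      simp
  · right
    apply Aff.ext
    · rw [pow_two, Aff.mul_a, h2]
      generalize x.a = a
      revert a
      decide +kernel
    · rw [Aff.pow_k, h2]
      decide

theorem G2_no_93 (x : G2) : orderOf x ≠ 31 * 3 := by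
  refine not_orderOf (by norm_num) (by norm_num) (fun x hx => ?_) x
  have h1 := G2_k hx
  have h0 : x.k ^ 3 = 1 := by
    revert h1
    generalize x.k = k
    revert k
    decide +kernel
  by_cases h2 : x.k = 1
  · left
    have h3 := congrArg Aff.a hx
    rw [Aff.pow_a x h2] at h3
    apply Aff.ext
    · rw [Aff.pow_a x h2]
      revert h3
      generalize x.a = a
      revert a
      decide +kernel
    · rw [Aff.pow_k, h2]
      simp
  · right
    have h5 : (x ^ 3).k = 1 := by rw [Aff.pow_k, h0]
    have h3 : x ^ (31 * 3) = (x ^ 3) ^ 31 := by rw [mul_comm, pow_mul]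
    rw [h3] at hx
    have h4 := congrArg Aff.a hx
    rw [Aff.pow_a _ h5] at h4
    apply Aff.ext
    · have h6 : (x ^ 3).a = x.a * (1 + U2 x.k + U2 x.k ^ 2) := by
        simp only [pow_succ, pow_zero, one_mul, Aff.mul_a, Aff.mul_k, map_mul]
        ring
      rw [h6] at h4 ⊢
      revert h4 h2 h0
      generalize x.a = a
      generalize x.k = k
      revert a k
      decide +kernel
    · rw [Aff.pow_k, h0]
      rfl

theorem G2_155 : ∃ x : G2, orderOf x = 31 * 5 :=
  ⟨⟨1, 1⟩, orderOf_eq (by norm_num) (by norm_num) (by decide +kernel) (by decide +kernel)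
    (by decide +kernel)⟩

theorem G2_15 : ∃ x : G2, orderOf x = 5 * 3 :=
  ⟨⟨31, Multiplicative.ofAdd 2⟩,
    orderOf_eq (by norm_num) (by norm_num) (by decide +kernel) (by decide +kernel)
    (by decide +kernel)⟩

theorem G2_6 : ∃ x : G2, orderOf x = 3 * 2 :=
  ⟨⟨0, Multiplicative.ofAdd 1⟩,
    orderOf_eq (by norm_num) (by norm_num) (by decide +kernel) (by decide +kernel)
    (by decide +kernel)⟩

/-! ### The prime graphs -/

theorem primeFactors_930 : (930 : ℕ).primeFactors = {2, 3, 5, 31} := by
  have h : (930 : ℕ) = 2 * (3 * (5 * 31)) := by norm_num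
  rw [h, Nat.primeFactors_mul (by norm_num) (by norm_num),
    Nat.primeFactors_mul (by norm_num) (by norm_num),
    Nat.primeFactors_mul (by norm_num) (by norm_num),
    Nat.Prime.primeFactors (by norm_num), Nat.Prime.primeFactors (by norm_num),
    Nat.Prime.primeFactors (by norm_num), Nat.Prime.primeFactors (by norm_num)]
  decide

theorem adj_cases {G : Type} [Group G] (hG : Nat.card G = 930) {p q : ℕ} (h : GKAdj G p q) :
    q = 2 ∨ q = 3 ∨ q = 5 ∨ q = 31 := by
  obtain ⟨-, hq, -, x, hx⟩ := h
  have h1 : q ∣ 930 := by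
    rw [← hG]
    exact (Dvd.intro_left p hx.symm).trans (orderOf_dvd_natCard x)
  have h2 : q ∈ (930 : ℕ).primeFactors := Nat.mem_primeFactors.2 ⟨hq, h1, by norm_num⟩
  rw [primeFactors_930] at h2
  simpa using h2

theorem adj_symm {G : Type} [Group G] {p q : ℕ} (h : GKAdj G p q) : GKAdj G q p := by
  obtain ⟨hp, hq, hne, x, hx⟩ := h
  exact ⟨hq, hp, hne.symm, x, by rw [hx, mul_comm]⟩

theorem G1_adj (p q : ℕ) : GKAdj G1 p q ↔
    (p, q) ∈ ({(31, 3), (3, 31), (3, 5), (5, 3), (5, 2), (2, 5)} : Finset (ℕ × ℕ)) := by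
  constructor
  · intro h
    have hq := adj_cases card_G1 h
    have hp := adj_cases card_G1 (adj_symm h)
    obtain ⟨-, -, hne, x, hx⟩ := h
    have a1 := G1_no_62 x
    have a2 := G1_no_6 x
    have a3 := G1_no_155 x
    rcases hp with rfl | rfl | rfl | rfl <;> rcases hq with rfl | rfl | rfl | rfl <;>
      first
        | (exfalso; exact hne rfl)
        | (exfalso; omega)
        | decide
  · intro h
    simp only [Finset.mem_insert, Finset.mem_singleton, Prod.mk.injEq] at h
    have b1 : GKAdj G1 31 3 := ⟨by norm_num, by norm_num, by norm_num, G1_93⟩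
    have b2 : GKAdj G1 5 3 := ⟨by norm_num, by norm_num, by norm_num, G1_15⟩
    have b3 : GKAdj G1 5 2 := ⟨by norm_num, by norm_num, by norm_num, G1_10⟩
    rcases h with ⟨rfl, rfl⟩ | ⟨rfl, rfl⟩ | ⟨rfl, rfl⟩ | ⟨rfl, rfl⟩ | ⟨rfl, rfl⟩ | ⟨rfl, rfl⟩
    · exact b1
    · exact adj_symm b1
    · exact adj_symm b2
    · exact b2
    · exact b3
    · exact adj_symm b3

theorem G2_adj (p q : ℕ) : GKAdj G2 p q ↔
    (p, q) ∈ ({(31, 5), (5, 31), (3, 5), (5, 3), (3, 2), (2, 3)} : Finset (ℕ × ℕ)) := by
  constructor
  · intro h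
    have hq := adj_cases card_G2 h
    have hp := adj_cases card_G2 (adj_symm h)
    obtain ⟨-, -, hne, x, hx⟩ := h
    have a1 := G2_no_62 x
    have a2 := G2_no_10 x
    have a3 := G2_no_93 x
    rcases hp with rfl | rfl | rfl | rfl <;> rcases hq with rfl | rfl | rfl | rfl <;>
      first
        | (exfalso; exact hne rfl)
        | (exfalso; omega)
        | decide
  · intro h
    simp only [Finset.mem_insert, Finset.mem_singleton, Prod.mk.injEq] at h
    have b1 : GKAdj G2 31 5 := ⟨by norm_num, by norm_num, by norm_num, G2_155⟩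
    have b2 : GKAdj G2 5 3 := ⟨by norm_num, by norm_num, by norm_num, G2_15⟩
    have b3 : GKAdj G2 3 2 := ⟨by norm_num, by norm_num, by norm_num, G2_6⟩
    rcases h with ⟨rfl, rfl⟩ | ⟨rfl, rfl⟩ | ⟨rfl, rfl⟩ | ⟨rfl, rfl⟩ | ⟨rfl, rfl⟩ | ⟨rfl, rfl⟩
    · exact b1
    · exact adj_symm b1
    · exact adj_symm b2
    · exact b2
    · exact b3
    · exact adj_symm b3

theorem deg_G1 (p : ℕ) : gkDegree G1 p = ((({(31, 3), (3, 31), (3, 5), (5, 3), (5, 2), (2, 5)} :
    Finset (ℕ × ℕ)).filter (fun e => e.1 = p)).image Prod.snd).card := by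
  rw [← Set.ncard_coe_finset]
  unfold gkDegree
  congr 1
  ext q
  rw [Set.mem_ofPred_eq, G1_adj]
  simp only [Finset.coe_image, Finset.coe_filter, Set.mem_image, Set.mem_ofPred_eq, Prod.exists]
  constructor
  · intro h
    exact ⟨p, q, ⟨h, rfl⟩, rfl⟩
  · rintro ⟨a, b, ⟨h1, h2⟩, h3⟩
    subst h2 h3
    exact h1

theorem deg_G2 (p : ℕ) : gkDegree G2 p = ((({(31, 5), (5, 31), (3, 5), (5, 3), (3, 2), (2, 3)} :
    Finset (ℕ × ℕ)).filter (fun e => e.1 = p)).image Prod.snd).card := by
  rw [← Set.ncard_coe_finset]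
  unfold gkDegree
  congr 1
  ext q
  rw [Set.mem_ofPred_eq, G2_adj]
  simp only [Finset.coe_image, Finset.coe_filter, Set.mem_image, Set.mem_ofPred_eq, Prod.exists]
  constructor
  · intro h
    exact ⟨p, q, ⟨h, rfl⟩, rfl⟩
  · rintro ⟨a, b, ⟨h1, h2⟩, h3⟩
    subst h2 h3
    exact h1

/-- There are finite groups `G` and `M` of the same order with the same degree pattern whose
prime graphs are different. -/
theorem result : ∃ (G M : Type) (_ : Group G) (_ : Group M) (_ : Finite G) (_ : Finite M),
    Nat.card G = Nat.card M ∧ degreePattern G = degreePattern M ∧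
      ¬ ∀ p q : ℕ, GKAdj G p q ↔ GKAdj M p q := by
  refine ⟨G1, G2, inferInstance, inferInstance, inferInstance, inferInstance,
    by rw [card_G1, card_G2], ?_, ?_⟩
  · unfold degreePattern
    rw [card_G1, card_G2]
    apply List.map_congr_left
    intro p hp
    rw [Finset.mem_sort, primeFactors_930] at hp
    rw [deg_G1, deg_G2]
    simp only [Finset.mem_insert, Finset.mem_singleton] at hp
    rcases hp with rfl | rfl | rfl | rfl <;> decide
  · intro h
    have h1 := (h 31 3).1 ((G1_adj 31 3).2 (by decide))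
    rw [G2_adj] at h1
    revert h1
    decide

end Pool.Agent.Results.MP_21cc58_al.Order930
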